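import Pool.Agent.MP_1d5a21_lc.Stmt

/-!
The club principle, read inside a model `(M, E)` of set theory. `w` stands for `ω`, `v` for `ω₁`.
-/

set_option autoImplicit false

namespace Pool.Agent.MP_9590fd_lc

open Pool.Agent.Lib.Forcing Pool.Agent.MP_1d5a21_lc

variable {M : Type 1} (E : M → M → Prop)

/-- The ordinal `d` is a limit ordinal. -/
def Lim (d : M) : Prop := (∃ a, E a d) ∧ ∀ a, E a d → ∃ b, E b d ∧ E a b

/-- `A` is a cofinal subset of `d` of order type `ω`. -/
def Lad (w d A : M) : Prop :=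
  Sub E A d ∧ (∀ a, E a d → ∃ b, E b A ∧ E a b) ∧
    ∃ h, Fn E w (fun _ y => E y A) h ∧ (∀ y, E y A → ∃ n, Ap E h n y) ∧
      ∀ n m x y, E n m → Ap E h n x → Ap E h m y → E x y

/-- Tiltan: a function `C` on the limit ordinals `d < v` whose values are ladders, such that every
uncountable subset of `v` includes some value. -/
def Club (w v : M) : Prop :=
  ∃ L C, (∀ d, E d L ↔ E d v ∧ Lim E d) ∧ Fn E L (fun d A => Lad E w d A) C ∧
    ∀ X, Sub E X v → ¬ Leq E X w → ∃ d A, Ap E C d A ∧ Sub E A X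

end Pool.Agent.MP_9590fd_lc
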